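import Mathlib
import Pool.Agent.Q133.Veto

set_option autoImplicit false

/-!
# A unit veto interval graph that is not a midpoint proper veto interval graph
-/

namespace Pool.Agent.Results.MP_230f06_co.CubeNotMPVI

open Q133.Veto

/-- The cube graph (`K_{4,4}` minus a perfect matching) is a UVI graph and not an MPVI graph. -/
theorem result : ∃ G : SimpleGraph (Fin 8), IsUVI G ∧ ¬ IsMPVI G :=
  ⟨crown, crown_uvi, crown_not_mpvi⟩

end Pool.Agent.Results.MP_230f06_co.CubeNotMPVI
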